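import Pool.Agent.H23.RDD.Targets
import Pool.Agent.H59.RD.SK2

/-! rdd_modules CHR: characters of the top Kummer group -/

set_option autoImplicit false

namespace Pool.Agent.H8.RDD

open Pool.Agent.H23.RDD Pool.Agent.H24.RD Pool.Agent.H59.RD NumberField Height Finset Polynomial

theorem pf_CHR : T_EXT → T_CHR := by
  intro hEXT F M _ _ _ _ _ p hp r γ hγ n m N' K' hm hmn hN hK hζ hθ hgen
  obtain ⟨ζ, hζ⟩ := hζ
  choose θ' hθ' using hθ
  have hp0 : 0 < p := hp.pos
  have hpz : NeZero p := ⟨hp.ne_zero⟩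
  have hN0 : 0 < N' := Nat.pos_of_ne_zero fun h => hN (h ▸ dvd_zero p)
  have hK0 : 0 < K' := Nat.pos_of_dvd_of_pos hK hN0
  have hpK : ¬ p ∣ K' := fun h => hN (h.trans hK)
  have hn : 1 ≤ n := hm.trans hmn
  have hcop : Nat.Coprime p K' := (Nat.Prime.coprime_iff_not_dvd hp).2 hpK
  have hg0 : ∀ i, algebraMap F M (γ i) ≠ 0 := fun i =>
    (map_ne_zero_iff _ (algebraMap F M).injective).2 (hγ i)
  have hpn : ∀ k, k ≤ n → ∀ z : M, z ^ (p ^ k) = 1 → z ^ (p ^ n * N') = 1 := by
    intro k hk z hz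
    have : p ^ k ∣ p ^ n * N' := (pow_dvd_pow p hk).mul_right _
    obtain ⟨c, hc⟩ := this
    rw [hc, pow_mul, hz, one_pow]
  have hpn1 : ∀ z : M, z ^ p = 1 → z ^ (p ^ n * N') = 1 := by
    intro z hz
    exact hpn 1 hn z (by rwa [pow_one])
  have hpm : p ^ m = p ^ (m - 1) * p := by
    rw [← pow_succ]; congr 1; omega
  set θ : Fin r → M := fun i => θ' i ^ K' with hθdef
  have hθ : ∀ i, θ i ^ (p ^ m) = algebraMap F M (γ i) := by
    intro i
    rw [hθdef]
    show (θ' i ^ K') ^ (p ^ m) = _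
    rw [← pow_mul, mul_comm, hθ' i]
  have hθ0 : ∀ i, θ i ≠ 0 := by
    intro i h
    have := hθ i
    rw [h, zero_pow (pow_ne_zero _ hp.ne_zero)] at this
    exact hg0 i this.symm
  -- primitive `p`-th root of unity
  have hζp : IsPrimitiveRoot (ζ ^ (p ^ (n - 1) * N')) p := by
    refine hζ.pow (by positivity) ?_
    rw [show p ^ n = p ^ (n - 1) * p by rw [← pow_succ]; congr 1; omega]
    ring
  set A := At F M γ p m (p ^ n * N') K' with hAdef
  -- the action on the generators
  have hz1 : ∀ h ∈ A, ∀ (z : M) (i : Fin r), z ^ (p ^ m * K') = algebraMap F M (γ i) →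
      (h z / z) ^ p = 1 := by
    intro h hh z i hz
    have hz0 : z ≠ 0 := by
      rintro rfl
      rw [zero_pow (by positivity)] at hz
      exact hg0 i hz.symm
    have e1 : (h z / z) ^ (K' * p) = 1 := by
      have h1 : (z ^ (K' * p)) ^ (p ^ (m - 1)) = algebraMap F M (γ i) := by
        rw [← pow_mul, ← hz]
        congr 1
        rw [hpm]; ring
      have h2 := hh.2 _ i h1
      rw [map_pow] at h2
      rw [div_pow, h2, div_self (pow_ne_zero _ hz0)]
    have e2 : (h z / z) ^ (p ^ m) = 1 := by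
      have h1 : (z ^ (p ^ m)) ^ K' = algebraMap F M (γ i) := by rw [← pow_mul, hz]
      have h2 := AA_root' hh.1 h1
      rw [map_pow] at h2
      rw [div_pow, h2, div_self (pow_ne_zero _ hz0)]
    have e3 := pow_gcd_one e1 e2
    have e4 : Nat.gcd (K' * p) (p ^ m) = p := by
      rw [hpm, Nat.gcd_mul_right]
      have : Nat.gcd K' (p ^ (m - 1)) = 1 := (hcop.symm.pow_right _)
      rw [this, one_mul]
    rwa [e4] at e3
  have hA0 : ∀ h ∈ A, h ^ p = 1 := by
    intro h hh
    refine aut_eq_one hgen _ ?_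
    rintro z (hz | ⟨i, hz⟩)
    · have : h ^ p ∈ AA F M γ (p ^ n * N') K' := pow_mem hh.1 p
      exact AA_root this hz
    · have hz0 : z ≠ 0 := by
        rintro rfl
        rw [zero_pow (by positivity)] at hz
        exact hg0 i hz.symm
      have h1 := hz1 h hh z i hz
      have h2 : h (h z / z) = h z / z := AA_root hh.1 (hpn1 _ h1)
      have h3 : ∀ k : ℕ, (h ^ k) z = (h z / z) ^ k * z := by
        intro k
        induction k with
        | zero => simp
        | succ k ih =>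
          rw [pow_succ', AlgEquiv.mul_apply, ih, map_mul, map_pow, h2]
          have : h z = (h z / z) * z := by field_simp
          rw [pow_succ, mul_assoc, ← this]
      rw [h3 p, h1, one_mul]
  -- the characters
  have hσ : ∀ i, ∃ s : A →* Multiplicative (ZMod p), ∀ a : A, (a.1 (θ i) / θ i) =
      ph hζp (s a) := by
    intro i
    have e0 : ∀ a : A, (a.1 (θ i) / θ i) ^ p = 1 := by
      intro a
      have h1 : (θ i ^ p) ^ (p ^ (m - 1)) = algebraMap F M (γ i) := by
        rw [← pow_mul, ← hθ i]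
        congr 1
        rw [hpm]; ring
      have h2 := a.2.2 _ i h1
      rw [map_pow] at h2
      rw [div_pow, h2, div_self (pow_ne_zero _ (hθ0 i))]
    refine toZ hζp (fun a : A => a.1 (θ i) / θ i) ?_ e0
    intro a b
    show a.1 (b.1 (θ i)) / θ i = a.1 (θ i) / θ i * (b.1 (θ i) / θ i)
    have h2 : a.1 (b.1 (θ i) / θ i) = b.1 (θ i) / θ i := AA_root a.2.1 (hpn1 _ (e0 b))
    have h3 : b.1 (θ i) = (b.1 (θ i) / θ i) * θ i := by
      rw [div_mul_cancel₀ _ (hθ0 i)]
    have h4 : a.1 (b.1 (θ i)) = (b.1 (θ i) / θ i) * a.1 (θ i) := by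
      conv_lhs => rw [h3, map_mul, h2]
    rw [h4]
    ring
  choose s hs using hσ
  refine ⟨fun h hh => hA0 h hh, fun χ0 hχm hχp => ?_⟩
  obtain ⟨χ, hχ⟩ := toZ hζp (fun a : A => χ0 a.1) (fun a b => hχm a.1 b.1 a.2 b.2)
    (fun a => hχp a.1 a.2)
  have hone : ∀ a : A, (∀ i, s i a = 1) → a = 1 := by
    intro a ha
    have h0 : ∀ i, a.1 (θ i) = θ i := by
      intro i
      have := hs i a
      rw [ha i, map_one] at this
      rwa [div_eq_one_iff_eq (hθ0 i)] at this
    apply Subtype.ext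
    refine aut_eq_one hgen _ ?_
    rintro z (hz | ⟨i, hz⟩)
    · exact AA_root a.2.1 hz
    · have hz0 : z ≠ 0 := by
        rintro rfl
        rw [zero_pow (by positivity)] at hz
        exact hg0 i hz.symm
      have e1 : (a.1 z / z) ^ K' = 1 := by
        have h1 : (z ^ K' / θ i) ^ (p ^ m) = 1 := by
          rw [div_pow, hθ i, ← pow_mul, mul_comm K', hz, div_self (hg0 i)]
        have h2 : a.1 (z ^ K' / θ i) = z ^ K' / θ i := AA_root a.2.1 (hpn m hmn _ h1)
        rw [map_div₀, h0 i, map_pow] at h2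
        have h3 := (div_left_inj' (hθ0 i)).1 h2
        rw [div_pow, h3, div_self (pow_ne_zero _ hz0)]
      have e2 : (a.1 z / z) ^ (p ^ m) = 1 := by
        have h1 : (z ^ (p ^ m)) ^ K' = algebraMap F M (γ i) := by rw [← pow_mul, hz]
        have h2 := AA_root' a.2.1 h1
        rw [map_pow] at h2
        rw [div_pow, h2, div_self (pow_ne_zero _ hz0)]
      have e3 := eq_one_of_coprime (hcop.symm.pow_right m) e1 e2
      rwa [div_eq_one_iff_eq hz0] at e3
  obtain ⟨x, hx⟩ := hEXT A p hp r s χ (fun a ha => by rw [hone a ha, map_one])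
  refine ⟨x, θ, hθ, fun h hh => ?_⟩
  have h2 : χ0 h = ph hζp (χ ⟨h, hh⟩) := hχ ⟨h, hh⟩
  rw [h2, hx, map_prod]
  refine Finset.prod_congr rfl fun i _ => ?_
  rw [map_pow]
  exact congrArg (· ^ x i) (hs i ⟨h, hh⟩).symm

end Pool.Agent.H8.RDD
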